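import Mathlib

/-!
# Unimodality of the coefficients of `F_s` (MP_dbd06c_co)

`F_0 = F_1 = 1`, `F_s = (1 + q + 2 q ^ 2) F_{s-1} + q ^ 3 F_{s-2}`.

Write `p = 1 + q + 2 q ^ 2`, `z = q ^ 3`.  Then `F_{2m+1} = A_m + z p B_m` and
`F_{2m+2} = (p + z) A_m + z p B_m`, where (homogenised) `A_m = ∏ (p ^ 2 + α_j z)` with
`α_j = 4 cos² (j π / (2m+1)) ∈ [0, 4]`, and `B_m = ∑ w_j ∏_{l ≠ j} (p ^ 2 + α_l z)` with positive
weights of sum one (partial fractions).  So `F_s` is a convex combination of products that differ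
from each other in one or two factors only, and log-concavity follows from a polarised
Cauchy-Binet argument together with finitely many inequalities between the coefficients of
products of at most three factors with parameters in `[0, 4]`.
-/

open Polynomial Finset

namespace Pool.Agent.Results.MP_dbd06c_co.Unimodal

/-- strong log-concavity (all 2x2 minors) of a function on `ℤ` -/
def SLC (c : ℤ → ℝ) : Prop := ∀ a b, a ≤ b → c (a-1) * c (b+1) ≤ c a * c b

/-- polarized strong log-concavity -/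
def Mix (f g : ℤ → ℝ) : Prop :=
  ∀ a b, a ≤ b → f (a-1) * g (b+1) + g (a-1) * f (b+1) ≤ f a * g b + g a * f b

lemma SLC.step {c : ℤ → ℝ} (h : SLC c) {a b : ℤ} (hab : a ≤ b) (k : ℕ) :
    c (a - k) * c (b + k) ≤ c a * c b := by
  induction k with
  | zero => simp
  | succ k ih =>
    refine le_trans ?_ ih
    have := h (a - k) (b + k) (by linarith [Nat.cast_nonneg (α := ℤ) k])
    have e1 : a - k - 1 = a - ((k+1 : ℕ) : ℤ) := by push_cast; ring
    have e2 : b + k + 1 = b + ((k+1 : ℕ) : ℤ) := by push_cast; ring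
    rw [e1, e2] at this
    exact this

lemma SLC.step' {c : ℤ → ℝ} (h : SLC c) {a b a' b' : ℤ} (hab : a ≤ b) (h1 : a' ≤ a)
    (h2 : a' + b' = a + b) : c a' * c b' ≤ c a * c b := by
  obtain ⟨k, hk⟩ := Int.eq_ofNat_of_zero_le (sub_nonneg.2 h1)
  have := h.step hab k
  have e1 : a - (k:ℤ) = a' := by rw [← hk]; ring
  have e2 : b + (k:ℤ) = b' := by rw [← hk]; linarith
  rwa [e1, e2] at this

/-- the two products are ordered -/
lemma SLC.cmp {c : ℤ → ℝ} (h : SLC c) (x y m : ℤ) (hm : 0 ≤ m) (hxy : y - x ≤ m) :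
    c (y - m - 1) * c (x + m + 1) ≤ c x * c y := by
  rcases le_total x y with hle | hle
  · exact h.step' hle (by linarith) (by ring)
  · have := h.step' (a' := y - m - 1) (b' := x + m + 1) hle (by linarith) (by ring)
    rwa [mul_comm (c y)] at this

lemma SLC.cmp' {c : ℤ → ℝ} (h : SLC c) (x y m : ℤ) (hm : 0 ≤ m) (hxy : m + 1 ≤ y - x) :
    c x * c y ≤ c (y - m - 1) * c (x + m + 1) := by
  rcases le_total (y - m - 1) (x + m + 1) with hle | hle
  · exact h.step' hle (by linarith) (by ring)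
  · have := h.step' (a' := x) (b' := y) hle (by linarith) (by ring)
    rwa [mul_comm (c (x + m + 1))] at this

/-- convolution of finitely supported functions -/
noncomputable def conv (c f : ℤ → ℝ) (n : ℤ) : ℝ := ∑ᶠ x, c x * f (n - x)

lemma conv_eq_sum {c f : ℤ → ℝ} (S : Finset ℤ) (hS : ∀ x, x ∉ S → c x = 0) (n : ℤ) :
    conv c f n = ∑ x ∈ S, c x * f (n - x) := by
  unfold conv
  apply finsum_eq_sum_of_support_subset
  intro x hx
  by_contra h
  exact hx (by simp [hS x (by simpa using h)])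

/-- the involution -/
def invo (m : ℤ) : ℤ × ℤ ≃ ℤ × ℤ where
  toFun p := (p.2 - m - 1, p.1 + m + 1)
  invFun p := (p.2 - m - 1, p.1 + m + 1)
  left_inv p := by ext <;> simp <;> ring
  right_inv p := by ext <;> simp <;> ring

theorem mix_conv {c f g : ℤ → ℝ} (hc : SLC c) (S : Finset ℤ) (hS : ∀ x, x ∉ S → c x = 0)
    (h : Mix f g) : Mix (conv c f) (conv c g) := by
  intro a b hab
  set m := b - a with hm
  have hm0 : 0 ≤ m := by rw [hm]; linarith
  -- kernel
  let E : ℤ → ℤ → ℝ := fun u v => f u * g v + g u * f v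
  have hEsymm : ∀ u v, E u v = E v u := by intro u v; simp only [E]; ring
  have hE : ∀ u v, u ≤ v → E (u-1) (v+1) ≤ E u v := by
    intro u v huv; simpa [E] using h u v huv
  let D : ℤ × ℤ → ℝ := fun p => E (a - p.1) (b - p.2) - E (a - p.1 - 1) (b - p.2 + 1)
  let W : ℤ × ℤ → ℝ := fun p => c p.1 * c p.2 * D p
  have hWsupp : Function.support W ⊆ (↑(S ×ˢ S) : Set (ℤ × ℤ)) := by
    intro p hp
    by_contra hn
    apply hp
    have : p.1 ∉ S ∨ p.2 ∉ S := by
      by_contra hcon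
      push Not at hcon
      exact hn (by simp [hcon.1, hcon.2])
    rcases this with h1 | h1
    · simp [W, hS _ h1]
    · simp [W, hS _ h1]
  have hWfin : (Function.support W).Finite := (S ×ˢ S).finite_toSet.subset hWsupp
  have hDinv : ∀ p, D (invo m p) = - D p := by
    intro p
    have e1 : a - (p.2 - m - 1) = b - p.2 + 1 := by rw [hm]; ring
    have e2 : b - (p.1 + m + 1) = a - p.1 - 1 := by rw [hm]; ring
    have e3 : a - (p.2 - m - 1) - 1 = b - p.2 := by rw [hm]; ring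
    have e4 : b - (p.1 + m + 1) + 1 = a - p.1 := by rw [hm]; ring
    simp only [D, invo, Equiv.coe_fn_mk]
    rw [e3, e4, e1, e2, hEsymm (b - p.2 + 1), hEsymm (b - p.2)]
    ring
  -- main sum
  have hmain : (conv c f a * conv c g b + conv c g a * conv c f b) -
      (conv c f (a-1) * conv c g (b+1) + conv c g (a-1) * conv c f (b+1)) = ∑ᶠ p, W p := by
    rw [finsum_eq_sum_of_support_subset W hWsupp]
    simp only [conv_eq_sum S hS]
    rw [Finset.sum_mul_sum, Finset.sum_mul_sum, Finset.sum_mul_sum, Finset.sum_mul_sum,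
      Finset.sum_product]
    simp only [← Finset.sum_add_distrib, ← Finset.sum_sub_distrib]
    refine Finset.sum_congr rfl fun x _ => Finset.sum_congr rfl fun y _ => ?_
    simp only [W, D, E]
    have e1 : a - 1 - x = a - x - 1 := by ring
    have e2 : b + 1 - y = b - y + 1 := by ring
    rw [e1, e2]
    ring
  have hinv : ∑ᶠ p, W (invo m p) = ∑ᶠ p, W p := finsum_comp_equiv (invo m)
  have hWfin' : (Function.support fun p => W (invo m p)).Finite := by
    have : (Function.support fun p => W (invo m p)) = (invo m) ⁻¹' (Function.support W) := rfl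
    rw [this]
    exact hWfin.preimage (invo m).injective.injOn
  have h2 : 2 * ∑ᶠ p, W p = ∑ᶠ p, (W p + W (invo m p)) := by
    rw [finsum_add_distrib hWfin hWfin', hinv]; ring
  have h3 : 0 ≤ ∑ᶠ p, (W p + W (invo m p)) := by
    apply finsum_nonneg
    intro p
    have hid : W p + W (invo m p) =
        (c p.1 * c p.2 - c (p.2 - m - 1) * c (p.1 + m + 1)) * D p := by
      simp only [W, hDinv]
      simp only [invo, Equiv.coe_fn_mk]
      ring
    rw [hid]
    rcases le_or_gt (p.2 - p.1) m with hle | hgt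
    · apply mul_nonneg
      · exact sub_nonneg.2 (hc.cmp _ _ _ hm0 hle)
      · exact sub_nonneg.2 (hE _ _ (by rw [hm] at hle; linarith))
    · apply mul_nonneg_of_nonpos_of_nonpos
      · exact sub_nonpos.2 (hc.cmp' _ _ _ hm0 (by linarith))
      · apply sub_nonpos.2
        have hgt' : b - p.2 + 1 ≤ a - p.1 := by rw [hm] at hgt; omega
        rcases hgt'.eq_or_lt with heq | hlt
        · have : a - p.1 - 1 = b - p.2 := by rw [← heq]; ring
          rw [this, ← heq, hEsymm]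
        · have := hE (b - p.2 + 1) (a - p.1 - 1) (by omega)
          have e5 : b - p.2 + 1 - 1 = b - p.2 := by ring
          have e6 : a - p.1 - 1 + 1 = a - p.1 := by ring
          rw [e5, e6] at this
          rw [hEsymm, hEsymm (a - p.1 - 1)]
          exact this
  linarith

/-! ### coefficient functions of polynomials -/

/-- coefficient function on `ℤ` -/
noncomputable def cz (P : ℝ[X]) (n : ℤ) : ℝ := if 0 ≤ n then P.coeff n.toNat else 0

lemma cz_nat (P : ℝ[X]) (n : ℕ) : cz P (n : ℤ) = P.coeff n := by simp [cz]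

lemma cz_neg (P : ℝ[X]) {n : ℤ} (h : n < 0) : cz P n = 0 := by
  simp [cz, not_le.2 h]

lemma cz_add (P Q : ℝ[X]) (n : ℤ) : cz (P + Q) n = cz P n + cz Q n := by
  unfold cz; split_ifs <;> simp

lemma cz_C_mul (r : ℝ) (P : ℝ[X]) (n : ℤ) : cz (C r * P) n = r * cz P n := by
  unfold cz; split_ifs <;> simp

lemma cz_sum {ι : Type*} (s : Finset ι) (P : ι → ℝ[X]) (n : ℤ) :
    cz (∑ i ∈ s, P i) n = ∑ i ∈ s, cz (P i) n := by
  unfold cz; split_ifs <;> simp

lemma cz_supp (P : ℝ[X]) (x : ℤ)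
    (hx : x ∉ (Finset.range (P.natDegree + 1)).map Nat.castEmbedding) : cz P x = 0 := by
  rcases lt_or_ge x 0 with h | h
  · exact cz_neg P h
  · obtain ⟨k, rfl⟩ := Int.eq_ofNat_of_zero_le h
    rw [cz_nat]
    apply coeff_eq_zero_of_natDegree_lt
    by_contra hcon
    apply hx
    simp only [Finset.mem_map, Finset.mem_range]
    exact ⟨k, by omega, rfl⟩

lemma cz_mul (P Q : ℝ[X]) : cz (P * Q) = conv (cz P) (cz Q) := by
  funext n
  rcases lt_or_ge n 0 with h | h
  · rw [cz_neg _ h, conv_eq_sum _ (cz_supp P)]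
    symm
    apply Finset.sum_eq_zero
    intro x hx
    simp only [Finset.mem_map, Finset.mem_range] at hx
    obtain ⟨k, hk, rfl⟩ := hx
    rw [cz_neg Q (by simp only [Nat.castEmbedding_apply]; omega), mul_zero]
  · obtain ⟨n, rfl⟩ := Int.eq_ofNat_of_zero_le h
    have hS : ∀ x, x ∉ (Finset.range (max (P.natDegree + 1) (n + 1))).map
        (Nat.castEmbedding (R := ℤ)) → cz P x = 0 := by
      intro x hx
      apply cz_supp P x
      intro hx'
      apply hx
      simp only [Finset.mem_map, Finset.mem_range] at hx' ⊢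
      obtain ⟨k, hk, rfl⟩ := hx'
      exact ⟨k, lt_of_lt_of_le hk (le_max_left _ _), rfl⟩
    rw [conv_eq_sum _ hS, cz_nat, coeff_mul,
      Finset.Nat.sum_antidiagonal_eq_sum_range_succ (fun i j => P.coeff i * Q.coeff j),
      Finset.sum_map]
    simp only [Nat.castEmbedding_apply]
    have : ∀ k ∈ Finset.range (max (P.natDegree + 1) (n + 1)), k ∉ Finset.range (n+1) →
        cz P (k:ℤ) * cz Q ((n:ℤ) - k) = 0 := by
      intro k _ hk
      rw [cz_neg Q (by simp only [Finset.mem_range] at hk; omega), mul_zero]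
    rw [← Finset.sum_subset (Finset.range_subset_range.2 (le_max_right _ _)) this]
    refine Finset.sum_congr rfl fun k hk => ?_
    have hk' : k ≤ n := by simpa [Nat.lt_succ_iff] using hk
    rw [cz_nat]
    congr 1
    rw [← cz_nat]
    congr 1
    push_cast [Nat.cast_sub hk']
    ring

lemma mix_self {c : ℤ → ℝ} : SLC c ↔ Mix c c := by
  constructor
  · intro h a b hab
    have := h a b hab
    linarith
  · intro h a b hab
    have := h a b hab
    linarith

lemma mix_mul {K U V : ℝ[X]} (hK : SLC (cz K)) (h : Mix (cz U) (cz V)) :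
    Mix (cz (K * U)) (cz (K * V)) := by
  rw [cz_mul, cz_mul]
  exact mix_conv hK _ (cz_supp K) h

lemma slc_mul {K U : ℝ[X]} (hK : SLC (cz K)) (h : SLC (cz U)) : SLC (cz (K * U)) :=
  mix_self.2 (mix_mul hK (mix_self.1 h))

/-- positive combinations -/
lemma slc_sum {ι : Type*} (s : Finset ι) (w : ι → ℝ) (hw : ∀ i ∈ s, 0 ≤ w i) (H : ι → ℝ[X])
    (hH : ∀ i ∈ s, ∀ j ∈ s, Mix (cz (H i)) (cz (H j))) :
    SLC (cz (∑ i ∈ s, C (w i) * H i)) := by
  rw [mix_self]
  intro a b hab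
  simp only [cz_sum, cz_C_mul]
  rw [Finset.sum_mul_sum, Finset.sum_mul_sum]
  have e : ∀ (u v : ℤ), ∑ i ∈ s, ∑ j ∈ s, w i * cz (H i) u * (w j * cz (H j) v) =
      ∑ i ∈ s, ∑ j ∈ s, w i * w j * (cz (H i) u * cz (H j) v) := by
    intro u v
    refine Finset.sum_congr rfl fun i _ => Finset.sum_congr rfl fun j _ => ?_
    ring
  have e' : ∀ (u v : ℤ), ∑ i ∈ s, ∑ j ∈ s, w i * w j * (cz (H i) u * cz (H j) v) =
      ∑ i ∈ s, ∑ j ∈ s, w i * w j * (cz (H j) u * cz (H i) v) := by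
    intro u v
    rw [Finset.sum_comm]
    refine Finset.sum_congr rfl fun i _ => Finset.sum_congr rfl fun j _ => ?_
    ring
  rw [e, e]
  have h3 : ∑ i ∈ s, ∑ j ∈ s, w i * w j * (cz (H i) (a-1) * cz (H j) (b+1)) +
      ∑ i ∈ s, ∑ j ∈ s, w i * w j * (cz (H j) (a-1) * cz (H i) (b+1)) ≤
      ∑ i ∈ s, ∑ j ∈ s, w i * w j * (cz (H i) a * cz (H j) b) +
      ∑ i ∈ s, ∑ j ∈ s, w i * w j * (cz (H j) a * cz (H i) b) := by
    simp only [← Finset.sum_add_distrib]
    refine Finset.sum_le_sum fun i hi => Finset.sum_le_sum fun j hj => ?_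
    have h1 := hH i hi j hj a b hab
    have h2 := mul_nonneg (hw i hi) (hw j hj)
    nlinarith [mul_le_mul_of_nonneg_left h1 h2]
  have h4 := e' (a-1) (b+1)
  have h5 := e' a b
  linarith

/-! ### explicit coefficient lists -/

/-- polynomial with a given list of coefficients -/
noncomputable def ofL : List ℝ → ℝ[X]
  | [] => 0
  | (a :: l) => C a + X * ofL l

lemma coeff_ofL (l : List ℝ) (n : ℕ) : (ofL l).coeff n = l.getD n 0 := by
  induction l generalizing n with
  | nil => simp [ofL]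
  | cons a l ih =>
    cases n with
    | zero => simp [ofL]
    | succ n => simp [ofL, ih]

/-- adjacent cross inequalities -/
def Cross : List ℝ → List ℝ → Prop
  | (a :: b :: c :: t), (_ :: b' :: c' :: t') =>
      a * c' ≤ b * b' ∧ Cross (b :: c :: t) (b' :: c' :: t')
  | _, _ => True

lemma Cross.get {l l' : List ℝ} (h : Cross l l') (i : ℕ) (hi : i + 2 < l.length)
    (hi' : i + 2 < l'.length) :
    l.getD i 0 * l'.getD (i+2) 0 ≤ l.getD (i+1) 0 * l'.getD (i+1) 0 := by
  induction i generalizing l l' with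
  | zero =>
    match l, l', h with
    | (a :: b :: c :: t), (a' :: b' :: c' :: t'), h => simpa using h.1
    | [], _, _ => simp at hi
    | [_], _, _ => simp at hi
    | [_, _], _, _ => simp at hi
    | _, [], _ => simp at hi'
    | _, [_], _ => simp at hi'
    | _, [_, _], _ => simp at hi'
  | succ i ih =>
    match l, l', h with
    | (a :: b :: c :: t), (a' :: b' :: c' :: t'), h =>
      have := ih h.2 (by simpa using hi) (by simpa using hi')
      simpa using this
    | [], _, _ => simp at hi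
    | [_], _, _ => simp at hi
    | [_, _], _, _ => simp at hi
    | _, [], _ => simp at hi'
    | _, [_], _ => simp at hi'
    | _, [_, _], _ => simp at hi'

lemma cross_all (u v : ℕ → ℝ) (N : ℕ) (hu : ∀ i ≤ N, 0 < u i) (hv : ∀ i ≤ N, 0 < v i)
    (hvv : ∀ i, i + 2 ≤ N → v i * v (i+2) ≤ v (i+1) * v (i+1))
    (huv : ∀ i, i + 2 ≤ N → u i * v (i+2) ≤ u (i+1) * v (i+1)) (i k : ℕ)
    (h : i + k + 2 ≤ N) : u i * v (i+k+2) ≤ u (i+1) * v (i+k+1) := by
  induction k with
  | zero => exact huv i h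
  | succ k ih =>
    have h1 := ih (by omega)
    have h2 := hvv (i+k+1) (by omega)
    have e1 : i + (k+1) + 2 = i + k + 1 + 2 := by ring
    have e2 : i + (k+1) + 1 = i + k + 2 := by ring
    have e3 : i + k + 1 + 1 = i + k + 2 := by ring
    rw [e1, e2]
    rw [e3] at h2
    have p1 := hv (i+k+1) (by omega)
    have p2 := hv (i+k+2) (by omega)
    have p3 := hu i (by omega)
    refine le_of_mul_le_mul_right ?_ p1
    calc u i * v (i+k+1+2) * v (i+k+1) = u i * (v (i+k+1) * v (i+k+1+2)) := by ring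
      _ ≤ u i * (v (i+k+2) * v (i+k+2)) := by gcongr
      _ = (u i * v (i+k+2)) * v (i+k+2) := by ring
      _ ≤ (u (i+1) * v (i+k+1)) * v (i+k+2) := by gcongr
      _ = u (i+1) * v (i+k+2) * v (i+k+1) := by ring

lemma mix_of_cross_aux {l l' : List ℝ} (hlen : l.length = l'.length) (hl : ∀ x ∈ l, 0 < x)
    (hl' : ∀ x ∈ l', 0 < x) (h2 : Cross l' l') (h : Cross l l') (a b : ℤ) (hab : a ≤ b) :
    cz (ofL l) (a-1) * cz (ofL l') (b+1) ≤ cz (ofL l) a * cz (ofL l') b := by
  have nn : ∀ n : ℤ, 0 ≤ cz (ofL l) n := by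
    intro n
    unfold cz
    split_ifs
    · rw [coeff_ofL]
      rcases lt_or_ge n.toNat l.length with h | h
      · rw [List.getD_eq_getElem _ _ h]; exact (hl _ (List.getElem_mem h)).le
      · rw [List.getD_eq_default _ _ h]
    · exact le_rfl
  have nn' : ∀ n : ℤ, 0 ≤ cz (ofL l') n := by
    intro n
    unfold cz
    split_ifs
    · rw [coeff_ofL]
      rcases lt_or_ge n.toNat l'.length with h | h
      · rw [List.getD_eq_getElem _ _ h]; exact (hl' _ (List.getElem_mem h)).le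
      · rw [List.getD_eq_default _ _ h]
    · exact le_rfl
  rcases lt_or_ge (a-1) 0 with h0 | h0
  · rw [cz_neg _ h0, zero_mul]
    exact mul_nonneg (nn _) (nn' _)
  · obtain ⟨i, hi⟩ := Int.eq_ofNat_of_zero_le h0
    obtain ⟨k, hk⟩ := Int.eq_ofNat_of_zero_le (sub_nonneg.2 hab)
    have ea : a = ((i+1 : ℕ) : ℤ) := by push_cast; linarith
    have eb : b = ((i+k+1 : ℕ) : ℤ) := by push_cast; linarith
    have ea1 : a - 1 = ((i : ℕ) : ℤ) := by linarith
    have eb1 : b + 1 = ((i+k+2 : ℕ) : ℤ) := by push_cast; linarith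
    rw [ea1, eb1, eb, ea, cz_nat, cz_nat, cz_nat, cz_nat, coeff_ofL, coeff_ofL, coeff_ofL,
      coeff_ofL]
    rcases lt_or_ge (i+k+2) l.length with h3 | h3
    · apply cross_all (fun n => l.getD n 0) (fun n => l'.getD n 0) (l.length - 1)
      · intro j hj
        have hj' : j < l.length := by omega
        change 0 < l.getD j 0
        rw [List.getD_eq_getElem _ _ hj']; exact hl _ (List.getElem_mem hj')
      · intro j hj
        have hj' : j < l'.length := by omega
        change 0 < l'.getD j 0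
        rw [List.getD_eq_getElem _ _ hj']; exact hl' _ (List.getElem_mem hj')
      · intro j hj
        exact h2.get j (by omega) (by omega)
      · intro j hj
        exact h.get j (by omega) (by omega)
      · omega
    · rw [List.getD_eq_default l' 0 (by omega : l'.length ≤ i+k+2), mul_zero]
      have := nn ((i+1 : ℕ) : ℤ)
      have := nn' ((i+k+1 : ℕ) : ℤ)
      rw [cz_nat, coeff_ofL] at *
      positivity

lemma mix_of_cross {l l' : List ℝ} (hlen : l.length = l'.length) (hl : ∀ x ∈ l, 0 < x)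
    (hl' : ∀ x ∈ l', 0 < x) (h1 : Cross l l) (h2 : Cross l' l') (h : Cross l l')
    (h' : Cross l' l) : Mix (cz (ofL l)) (cz (ofL l')) := by
  intro a b hab
  have A := mix_of_cross_aux hlen hl hl' h2 h a b hab
  have B := mix_of_cross_aux hlen.symm hl' hl h1 h' a b hab
  linarith

lemma slc_of_cross {l : List ℝ} (hl : ∀ x ∈ l, 0 < x) (h1 : Cross l l) : SLC (cz (ofL l)) :=
  fun a b hab => mix_of_cross_aux rfl hl hl h1 h1 a b hab


/-! ### explicit factors -/

/-- coefficients of a product -/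
def qqL (x y : ℝ) : List ℝ :=
  [1, 4, 14, 28 + y + x, 49 + 2 * y + 2 * x, 56 + 5 * y + 5 * x, 56 + 4 * y + 4 * x + x * y, 32 + 4 * y + 4 * x, 16]

/-- coefficients of a product -/
def qqqL (x y w : ℝ) : List ℝ :=
  [1, 6, 27, 80 + w + y + x, 195 + 4 * w + 4 * y + 4 * x, 366 + 14 * w + 14 * y + 14 * x, 581 + 28 * w + 28 * y + y * w + 28 * x + x * w + x * y, 732 + 49 * w + 49 * y + 2 * y * w + 49 * x + 2 * x * w + 2 * x * y, 780 + 56 * w + 56 * y + 5 * y * w + 56 * x + 5 * x * w + 5 * x * y, 640 + 56 * w + 56 * y + 4 * y * w + 56 * x + 4 * x * w + 4 * x * y + x * y * w, 432 + 32 * w + 32 * y + 4 * y * w + 32 * x + 4 * x * w + 4 * x * y, 192 + 16 * w + 16 * y + 16 * x, 64]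

/-- coefficients of a product -/
def gqL (x y : ℝ) : List ℝ :=
  [1, 4, 14, 29 + y + x, 52 + 2 * y + 2 * x, 65 + 5 * y + 5 * x, 69 + 5 * y + 4 * x + x * y, 50 + 5 * y + 4 * x, 28 + 2 * y, 8]

/-- coefficients of a product -/
def g2qL (x y : ℝ) : List ℝ :=
  [1, 5, 20, 52 + y + x, 112 + 3 * y + 3 * x, 184 + 9 * y + 9 * x, 251 + 15 * y + 14 * x + x * y, 267 + 21 * y + 20 * x + x * y, 228 + 19 * y + 17 * x + 2 * x * y, 144 + 12 * y + 12 * x + x * y, 64 + 4 * y + 4 * x, 16]

/-- the quartic factor `p ^ 2 + x q ^ 3` -/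
noncomputable def Qx (x : ℝ) : ℝ[X] := ofL [1, 2, 5, 4 + x, 4]

/-- the factor `p ^ 2 + x q ^ 3 + q ^ 3 p` -/
noncomputable def Gx (x : ℝ) : ℝ[X] := ofL [1, 2, 5, 5 + x, 5, 2]

/-- the factor `(p + q ^ 3) (p ^ 2 + x q ^ 3) + q ^ 3 p` -/
noncomputable def Hx (x : ℝ) : ℝ[X] := ofL [1, 3, 9, 15 + x, 21 + x, 19 + 2 * x, 12 + x, 4]

/-- `p` -/
noncomputable def pp : ℝ[X] := 1 + X + 2 * X ^ 2

lemma Qx_eq (x : ℝ) : Qx x = pp ^ 2 + C x * X ^ 3 := by
  simp only [Qx, ofL, pp, map_add, map_ofNat, map_one]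
  ring

lemma Gx_eq (x : ℝ) : Gx x = Qx x + X ^ 3 * pp := by
  simp only [Gx, Qx, ofL, pp, map_add, map_ofNat, map_one]
  ring

lemma Hx_eq (x : ℝ) : Hx x = (pp + X ^ 3) * Qx x + X ^ 3 * pp := by
  simp only [Hx, Qx, ofL, pp, map_add, map_mul, map_ofNat, map_one]
  ring

lemma QQ_eq (x y : ℝ) : Qx x * Qx y = ofL (qqL x y) := by
  simp only [Qx, ofL, qqL, map_add, map_mul, map_ofNat, map_one]
  ring

lemma QQQ_eq (x y w : ℝ) : Qx x * (Qx y * Qx w) = ofL (qqqL x y w) := by
  simp only [Qx, ofL, qqqL, map_add, map_mul, map_ofNat, map_one]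
  ring

lemma GQ_eq (x y : ℝ) : Gx x * Qx y = ofL (gqL x y) := by
  simp only [Gx, Qx, ofL, gqL, map_add, map_mul, map_ofNat, map_one]
  ring

lemma HQ_eq (x y : ℝ) : Hx x * Qx y = ofL (g2qL x y) := by
  simp only [Hx, Qx, ofL, g2qL, map_add, map_mul, map_ofNat, map_one]
  ring

lemma qq_pos {x y : ℝ} (hx : 0 ≤ x) (hy : 0 ≤ y) : ∀ t ∈ qqL x y, 0 < t := by
  intro t ht
  simp only [qqL, List.mem_cons, List.not_mem_nil, or_false] at ht
  rcases ht with rfl | rfl | rfl | rfl | rfl | rfl | rfl | rfl | rfl <;> positivity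

lemma qqq_pos {x y w : ℝ} (hx : 0 ≤ x) (hy : 0 ≤ y) (hw : 0 ≤ w) : ∀ t ∈ qqqL x y w, 0 < t := by
  intro t ht
  simp only [qqqL, List.mem_cons, List.not_mem_nil, or_false] at ht
  rcases ht with rfl | rfl | rfl | rfl | rfl | rfl | rfl | rfl | rfl | rfl | rfl | rfl | rfl <;> positivity

lemma gq_pos {x y : ℝ} (hx : 0 ≤ x) (hy : 0 ≤ y) : ∀ t ∈ gqL x y, 0 < t := by
  intro t ht
  simp only [gqL, List.mem_cons, List.not_mem_nil, or_false] at ht
  rcases ht with rfl | rfl | rfl | rfl | rfl | rfl | rfl | rfl | rfl | rfl <;> positivity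

lemma g2q_pos {x y : ℝ} (hx : 0 ≤ x) (hy : 0 ≤ y) : ∀ t ∈ g2qL x y, 0 < t := by
  intro t ht
  simp only [g2qL, List.mem_cons, List.not_mem_nil, or_false] at ht
  rcases ht with rfl | rfl | rfl | rfl | rfl | rfl | rfl | rfl | rfl | rfl | rfl | rfl <;> positivity

lemma qq_cross {x y : ℝ} (hx : 0 ≤ x) (hx4 : x ≤ 4) (hy : 0 ≤ y) (hy4 : y ≤ 4) :
    Cross (qqL x y) (qqL x y) := by
  have x1 : 0 ≤ x * x := mul_nonneg hx hx
  have x2 : 0 ≤ x * (4 - x) := mul_nonneg hx (sub_nonneg.2 hx4)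
  have x3 : 0 ≤ (4 - x) * (4 - x) := mul_nonneg (sub_nonneg.2 hx4) (sub_nonneg.2 hx4)
  have y1 : 0 ≤ y * y := mul_nonneg hy hy
  have y2 : 0 ≤ y * (4 - y) := mul_nonneg hy (sub_nonneg.2 hy4)
  have y3 : 0 ≤ (4 - y) * (4 - y) := mul_nonneg (sub_nonneg.2 hy4) (sub_nonneg.2 hy4)
  have k0 := (mul_nonneg x1 y1)
  have k1 := (mul_nonneg x1 y2)
  have k2 := (mul_nonneg x1 y3)
  have k3 := (mul_nonneg x2 y1)
  have k4 := (mul_nonneg x2 y2)
  have k5 := (mul_nonneg x2 y3)
  have k6 := (mul_nonneg x3 y1)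
  have k7 := (mul_nonneg x3 y2)
  have k8 := (mul_nonneg x3 y3)
  simp only [qqL, Cross, and_true]
  refine ⟨?_, ?_, ?_, ?_, ?_, ?_, ?_⟩ <;> linarith only [k0, k1, k2, k3, k4, k5, k6, k7, k8, hx, hx4, hy, hy4]

lemma qqq_cross {x y w : ℝ} (hx : 0 ≤ x) (hx4 : x ≤ 4) (hy : 0 ≤ y) (hy4 : y ≤ 4) (hw : 0 ≤ w) (hw4 : w ≤ 4) :
    Cross (qqqL x y w) (qqqL x y w) := by
  have x1 : 0 ≤ x * x := mul_nonneg hx hx
  have x2 : 0 ≤ x * (4 - x) := mul_nonneg hx (sub_nonneg.2 hx4)
  have x3 : 0 ≤ (4 - x) * (4 - x) := mul_nonneg (sub_nonneg.2 hx4) (sub_nonneg.2 hx4)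
  have y1 : 0 ≤ y * y := mul_nonneg hy hy
  have y2 : 0 ≤ y * (4 - y) := mul_nonneg hy (sub_nonneg.2 hy4)
  have y3 : 0 ≤ (4 - y) * (4 - y) := mul_nonneg (sub_nonneg.2 hy4) (sub_nonneg.2 hy4)
  have w1 : 0 ≤ w * w := mul_nonneg hw hw
  have w2 : 0 ≤ w * (4 - w) := mul_nonneg hw (sub_nonneg.2 hw4)
  have w3 : 0 ≤ (4 - w) * (4 - w) := mul_nonneg (sub_nonneg.2 hw4) (sub_nonneg.2 hw4)
  have k0 := (mul_nonneg (mul_nonneg x1 y1) w1)
  have k1 := (mul_nonneg (mul_nonneg x1 y1) w2)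
  have k2 := (mul_nonneg (mul_nonneg x1 y1) w3)
  have k3 := (mul_nonneg (mul_nonneg x1 y2) w1)
  have k4 := (mul_nonneg (mul_nonneg x1 y2) w2)
  have k5 := (mul_nonneg (mul_nonneg x1 y2) w3)
  have k6 := (mul_nonneg (mul_nonneg x1 y3) w1)
  have k7 := (mul_nonneg (mul_nonneg x1 y3) w2)
  have k8 := (mul_nonneg (mul_nonneg x1 y3) w3)
  have k9 := (mul_nonneg (mul_nonneg x2 y1) w1)
  have k10 := (mul_nonneg (mul_nonneg x2 y1) w2)
  have k11 := (mul_nonneg (mul_nonneg x2 y1) w3)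
  have k12 := (mul_nonneg (mul_nonneg x2 y2) w1)
  have k13 := (mul_nonneg (mul_nonneg x2 y2) w2)
  have k14 := (mul_nonneg (mul_nonneg x2 y2) w3)
  have k15 := (mul_nonneg (mul_nonneg x2 y3) w1)
  have k16 := (mul_nonneg (mul_nonneg x2 y3) w2)
  have k17 := (mul_nonneg (mul_nonneg x2 y3) w3)
  have k18 := (mul_nonneg (mul_nonneg x3 y1) w1)
  have k19 := (mul_nonneg (mul_nonneg x3 y1) w2)
  have k20 := (mul_nonneg (mul_nonneg x3 y1) w3)
  have k21 := (mul_nonneg (mul_nonneg x3 y2) w1)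
  have k22 := (mul_nonneg (mul_nonneg x3 y2) w2)
  have k23 := (mul_nonneg (mul_nonneg x3 y2) w3)
  have k24 := (mul_nonneg (mul_nonneg x3 y3) w1)
  have k25 := (mul_nonneg (mul_nonneg x3 y3) w2)
  have k26 := (mul_nonneg (mul_nonneg x3 y3) w3)
  simp only [qqqL, Cross, and_true]
  refine ⟨?_, ?_, ?_, ?_, ?_, ?_, ?_, ?_, ?_, ?_, ?_⟩ <;> linarith only [k0, k1, k2, k3, k4, k5, k6, k7, k8, k9, k10, k11, k12, k13, k14, k15, k16, k17, k18, k19, k20, k21, k22, k23, k24, k25, k26, hx, hx4, hy, hy4, hw, hw4]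

lemma gq_cross {x y : ℝ} (hx : 0 ≤ x) (hx4 : x ≤ 4) (hy : 0 ≤ y) (hy4 : y ≤ 4) :
    Cross (gqL x y) (gqL x y) := by
  have x1 : 0 ≤ x * x := mul_nonneg hx hx
  have x2 : 0 ≤ x * (4 - x) := mul_nonneg hx (sub_nonneg.2 hx4)
  have x3 : 0 ≤ (4 - x) * (4 - x) := mul_nonneg (sub_nonneg.2 hx4) (sub_nonneg.2 hx4)
  have y1 : 0 ≤ y * y := mul_nonneg hy hy
  have y2 : 0 ≤ y * (4 - y) := mul_nonneg hy (sub_nonneg.2 hy4)
  have y3 : 0 ≤ (4 - y) * (4 - y) := mul_nonneg (sub_nonneg.2 hy4) (sub_nonneg.2 hy4)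
  have k0 := (mul_nonneg x1 y1)
  have k1 := (mul_nonneg x1 y2)
  have k2 := (mul_nonneg x1 y3)
  have k3 := (mul_nonneg x2 y1)
  have k4 := (mul_nonneg x2 y2)
  have k5 := (mul_nonneg x2 y3)
  have k6 := (mul_nonneg x3 y1)
  have k7 := (mul_nonneg x3 y2)
  have k8 := (mul_nonneg x3 y3)
  simp only [gqL, Cross, and_true]
  refine ⟨?_, ?_, ?_, ?_, ?_, ?_, ?_, ?_⟩ <;> linarith only [k0, k1, k2, k3, k4, k5, k6, k7, k8, hx, hx4, hy, hy4]

lemma gq_cross2 {x y : ℝ} (hx : 0 ≤ x) (hx4 : x ≤ 4) (hy : 0 ≤ y) (hy4 : y ≤ 4) :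
    Cross (gqL x y) (gqL y x) := by
  have x1 : 0 ≤ x * x := mul_nonneg hx hx
  have x2 : 0 ≤ x * (4 - x) := mul_nonneg hx (sub_nonneg.2 hx4)
  have x3 : 0 ≤ (4 - x) * (4 - x) := mul_nonneg (sub_nonneg.2 hx4) (sub_nonneg.2 hx4)
  have y1 : 0 ≤ y * y := mul_nonneg hy hy
  have y2 : 0 ≤ y * (4 - y) := mul_nonneg hy (sub_nonneg.2 hy4)
  have y3 : 0 ≤ (4 - y) * (4 - y) := mul_nonneg (sub_nonneg.2 hy4) (sub_nonneg.2 hy4)
  have k0 := (mul_nonneg x1 y1)
  have k1 := (mul_nonneg x1 y2)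
  have k2 := (mul_nonneg x1 y3)
  have k3 := (mul_nonneg x2 y1)
  have k4 := (mul_nonneg x2 y2)
  have k5 := (mul_nonneg x2 y3)
  have k6 := (mul_nonneg x3 y1)
  have k7 := (mul_nonneg x3 y2)
  have k8 := (mul_nonneg x3 y3)
  simp only [gqL, Cross, and_true]
  refine ⟨?_, ?_, ?_, ?_, ?_, ?_, ?_, ?_⟩ <;> linarith only [k0, k1, k2, k3, k4, k5, k6, k7, k8, hx, hx4, hy, hy4]

lemma g2q_cross {x y : ℝ} (hx : 0 ≤ x) (hx4 : x ≤ 4) (hy : 0 ≤ y) (hy4 : y ≤ 4) :
    Cross (g2qL x y) (g2qL x y) := by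
  have x1 : 0 ≤ x * x := mul_nonneg hx hx
  have x2 : 0 ≤ x * (4 - x) := mul_nonneg hx (sub_nonneg.2 hx4)
  have x3 : 0 ≤ (4 - x) * (4 - x) := mul_nonneg (sub_nonneg.2 hx4) (sub_nonneg.2 hx4)
  have y1 : 0 ≤ y * y := mul_nonneg hy hy
  have y2 : 0 ≤ y * (4 - y) := mul_nonneg hy (sub_nonneg.2 hy4)
  have y3 : 0 ≤ (4 - y) * (4 - y) := mul_nonneg (sub_nonneg.2 hy4) (sub_nonneg.2 hy4)
  have k0 := (mul_nonneg x1 y1)
  have k1 := (mul_nonneg x1 y2)
  have k2 := (mul_nonneg x1 y3)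
  have k3 := (mul_nonneg x2 y1)
  have k4 := (mul_nonneg x2 y2)
  have k5 := (mul_nonneg x2 y3)
  have k6 := (mul_nonneg x3 y1)
  have k7 := (mul_nonneg x3 y2)
  have k8 := (mul_nonneg x3 y3)
  simp only [g2qL, Cross, and_true]
  refine ⟨?_, ?_, ?_, ?_, ?_, ?_, ?_, ?_, ?_, ?_⟩ <;> linarith only [k0, k1, k2, k3, k4, k5, k6, k7, k8, hx, hx4, hy, hy4]

lemma g2q_cross2 {x y : ℝ} (hx : 0 ≤ x) (hx4 : x ≤ 4) (hy : 0 ≤ y) (hy4 : y ≤ 4) :
    Cross (g2qL x y) (g2qL y x) := by
  have x1 : 0 ≤ x * x := mul_nonneg hx hx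
  have x2 : 0 ≤ x * (4 - x) := mul_nonneg hx (sub_nonneg.2 hx4)
  have x3 : 0 ≤ (4 - x) * (4 - x) := mul_nonneg (sub_nonneg.2 hx4) (sub_nonneg.2 hx4)
  have y1 : 0 ≤ y * y := mul_nonneg hy hy
  have y2 : 0 ≤ y * (4 - y) := mul_nonneg hy (sub_nonneg.2 hy4)
  have y3 : 0 ≤ (4 - y) * (4 - y) := mul_nonneg (sub_nonneg.2 hy4) (sub_nonneg.2 hy4)
  have k0 := (mul_nonneg x1 y1)
  have k1 := (mul_nonneg x1 y2)
  have k2 := (mul_nonneg x1 y3)
  have k3 := (mul_nonneg x2 y1)
  have k4 := (mul_nonneg x2 y2)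
  have k5 := (mul_nonneg x2 y3)
  have k6 := (mul_nonneg x3 y1)
  have k7 := (mul_nonneg x3 y2)
  have k8 := (mul_nonneg x3 y3)
  simp only [g2qL, Cross, and_true]
  refine ⟨?_, ?_, ?_, ?_, ?_, ?_, ?_, ?_, ?_, ?_⟩ <;> linarith only [k0, k1, k2, k3, k4, k5, k6, k7, k8, hx, hx4, hy, hy4]


/-! ### Chebyshev-type polynomials -/

/-- the pair `(A_m, B_m)` -/
noncomputable def AB : ℕ → ℝ[X] × ℝ[X]
  | 0 => (1, 0)
  | (m+1) => (X * ((AB m).1 + (AB m).2) + (AB m).1, (AB m).1 + (AB m).2)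

lemma AB1_succ (m : ℕ) : (AB (m+1)).1 = X * (AB (m+1)).2 + (AB m).1 := rfl
lemma AB2_succ (m : ℕ) : (AB (m+1)).2 = (AB m).1 + (AB m).2 := rfl

lemma AB_deg (m : ℕ) : (AB m).1.Monic ∧ (AB m).1.natDegree = m ∧ (AB m).2.degree < (m : ℕ) := by
  induction m with
  | zero => simp [AB, monic_one]
  | succ m ih =>
    obtain ⟨h1, h2, h3⟩ := ih
    have hd : (AB m).1.degree = (m : ℕ) := by
      rw [degree_eq_natDegree h1.ne_zero, h2]
    have hlt : (AB m).2.degree < (AB m).1.degree := by rw [hd]; exact h3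
    have hB : (AB (m+1)).2.Monic := by
      rw [AB2_succ]; exact h1.add_of_left hlt
    have hBd : (AB (m+1)).2.degree = (m : ℕ) := by
      rw [AB2_succ, degree_add_eq_left_of_degree_lt hlt, hd]
    have hXB : (X * (AB (m+1)).2).Monic := monic_X.mul hB
    have hXBd : (X * (AB (m+1)).2).degree = ((m+1 : ℕ) : WithBot ℕ) := by
      rw [degree_mul, degree_X, hBd]
      push_cast
      ring
    have hlt2 : (AB m).1.degree < (X * (AB (m+1)).2).degree := by
      rw [hXBd, hd]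
      exact_mod_cast Nat.lt_succ_self m
    have hA : (AB (m+1)).1.Monic := by
      rw [AB1_succ]; exact hXB.add_of_left hlt2
    refine ⟨hA, ?_, ?_⟩
    · apply natDegree_eq_of_degree_eq_some
      rw [AB1_succ, degree_add_eq_left_of_degree_lt hlt2, hXBd]
    · rw [hBd]
      exact_mod_cast Nat.lt_succ_self m

lemma AB2_monic (m : ℕ) : (AB (m+1)).2.Monic ∧ (AB (m+1)).2.natDegree = m := by
  obtain ⟨h1, h2, h3⟩ := AB_deg m
  have hd : (AB m).1.degree = (m : ℕ) := by
    rw [degree_eq_natDegree h1.ne_zero, h2]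
  have hlt : (AB m).2.degree < (AB m).1.degree := by rw [hd]; exact h3
  constructor
  · rw [AB2_succ]; exact h1.add_of_left hlt
  · rw [AB2_succ, natDegree_add_eq_left_of_degree_lt hlt, h2]

lemma AB_wronsk (m : ℕ) (x : ℝ) :
    1 ≤ (derivative (AB (m+1)).1).eval x * (AB (m+1)).2.eval x -
      (AB (m+1)).1.eval x * (derivative (AB (m+1)).2).eval x := by
  induction m with
  | zero => simp [AB]
  | succ m ih =>
    rw [AB1_succ (m+1), AB2_succ (m+1)]
    simp only [derivative_add, derivative_mul, derivative_X, eval_add, eval_mul, eval_X, one_mul]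
    nlinarith [sq_nonneg ((AB (m+1)).1.eval x + (AB (m+1)).2.eval x)]

lemma AB_trig (m : ℕ) (θ : ℝ) :
    (AB m).1.eval (-4 * Real.cos θ ^ 2) * Real.sin θ = (-1) ^ m * Real.sin ((2 * m + 1) * θ) ∧
    (AB m).2.eval (-4 * Real.cos θ ^ 2) * (2 * Real.sin θ * Real.cos θ) =
      (-1) ^ (m+1) * Real.sin (2 * m * θ) := by
  induction m with
  | zero => simp [AB]
  | succ m ih =>
    obtain ⟨h1, h2⟩ := ih
    have e1 : Real.sin ((2 * m + 2) * θ) + Real.sin (2 * m * θ) =
        2 * Real.sin ((2 * m + 1) * θ) * Real.cos θ := by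
      have a1 : (2 * (m:ℝ) + 2) * θ = (2 * m + 1) * θ + θ := by ring
      have a2 : (2 * (m:ℝ)) * θ = (2 * m + 1) * θ - θ := by ring
      rw [a1, a2, Real.sin_add, Real.sin_sub]; ring
    have e2 : Real.sin ((2 * m + 3) * θ) + Real.sin ((2 * m + 1) * θ) =
        2 * Real.sin ((2 * m + 2) * θ) * Real.cos θ := by
      have a1 : (2 * (m:ℝ) + 3) * θ = (2 * m + 2) * θ + θ := by ring
      have a2 : (2 * (m:ℝ) + 1) * θ = (2 * m + 2) * θ - θ := by ring
      rw [a1, a2, Real.sin_add, Real.sin_sub]; ring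
    have hB : (AB (m+1)).2.eval (-4 * Real.cos θ ^ 2) * (2 * Real.sin θ * Real.cos θ) =
        (-1) ^ m * Real.sin ((2 * m + 2) * θ) := by
      rw [AB2_succ, eval_add]
      have : Real.sin ((2 * m + 2) * θ) =
        2 * Real.sin ((2 * m + 1) * θ) * Real.cos θ - Real.sin (2 * m * θ) := by linarith
      rw [this]
      have h2' : (-1 : ℝ) ^ (m+1) = - (-1) ^ m := by ring
      rw [h2'] at h2
      linear_combination 2 * Real.cos θ * h1 + h2
    constructor
    · rw [AB1_succ, eval_add, eval_mul, eval_X]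
      have c1 : (2 * ((m+1 : ℕ) : ℝ) + 1) * θ = (2 * m + 3) * θ := by push_cast; ring
      rw [c1]
      have : Real.sin ((2 * m + 3) * θ) =
        2 * Real.sin ((2 * m + 2) * θ) * Real.cos θ - Real.sin ((2 * m + 1) * θ) := by linarith
      rw [this]
      have h2' : (-1 : ℝ) ^ (m+1) = - (-1) ^ m := by ring
      rw [h2']
      linear_combination (-2 * Real.cos θ) * hB + h1
    · rw [hB]
      have c1 : 2 * ((m+1 : ℕ) : ℝ) * θ = (2 * m + 2) * θ := by push_cast; ring
      rw [c1]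
      ring

/-- the angles -/
noncomputable def th (m j : ℕ) : ℝ := (j + 1) * Real.pi / (2 * m + 1)

lemma th_pos (m j : ℕ) : 0 < th m j := by
  unfold th
  have := Real.pi_pos
  positivity

lemma th_lt {m j : ℕ} (hj : j < m) : th m j < Real.pi / 2 := by
  unfold th
  rw [div_lt_div_iff₀ (by positivity) (by norm_num)]
  have h : (j : ℝ) + 1 ≤ m := by exact_mod_cast hj
  have := Real.pi_pos
  nlinarith

/-- the parameters -/
noncomputable def al (m j : ℕ) : ℝ := 4 * Real.cos (th m j) ^ 2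

lemma al_nonneg (m j : ℕ) : 0 ≤ al m j := by unfold al; positivity

lemma al_le (m j : ℕ) : al m j ≤ 4 := by
  unfold al
  nlinarith [Real.cos_sq_add_sin_sq (th m j), sq_nonneg (Real.sin (th m j))]

lemma al_injOn (m : ℕ) : Set.InjOn (fun j => - al m j) (Finset.range m : Finset ℕ) := by
  intro i hi j hj hij
  simp only [Finset.coe_range, Set.mem_Iio] at hi hj
  simp only [al, neg_inj] at hij
  have c1 : 0 < Real.cos (th m i) := Real.cos_pos_of_mem_Ioo
    ⟨by linarith [th_pos m i, Real.pi_pos], th_lt hi⟩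
  have c2 : 0 < Real.cos (th m j) := Real.cos_pos_of_mem_Ioo
    ⟨by linarith [th_pos m j, Real.pi_pos], th_lt hj⟩
  have c3 : Real.cos (th m i) = Real.cos (th m j) := by
    have : Real.cos (th m i) ^ 2 = Real.cos (th m j) ^ 2 := by linarith
    nlinarith [this, sq_nonneg (Real.cos (th m i) - Real.cos (th m j))]
  have c4 : th m i = th m j := by
    apply Real.injOn_cos _ _ c3
    · exact ⟨(th_pos m i).le, by linarith [th_lt hi, Real.pi_pos]⟩
    · exact ⟨(th_pos m j).le, by linarith [th_lt hj, Real.pi_pos]⟩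
  unfold th at c4
  have hpi := Real.pi_pos
  have h6 : (i : ℝ) + 1 = j + 1 := by
    have hne : (2 * (m:ℝ) + 1) ≠ 0 := by positivity
    field_simp at c4
    exact c4
  have h7 : (i : ℝ) = j := by linarith
  exact_mod_cast h7

lemma A_root {m j : ℕ} (hj : j < m) : (AB m).1.eval (- al m j) = 0 := by
  have h := (AB_trig m (th m j)).1
  have e : (2 * (m : ℝ) + 1) * th m j = ((j + 1 : ℕ) : ℝ) * Real.pi := by
    unfold th
    have : (2 * (m:ℝ) + 1) ≠ 0 := by positivity
    push_cast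
    field_simp
  rw [e, Real.sin_nat_mul_pi, mul_zero] at h
  have hs : 0 < Real.sin (th m j) := Real.sin_pos_of_pos_of_lt_pi (th_pos m j)
    (by linarith [th_lt hj, Real.pi_pos])
  have e2 : - al m j = -4 * Real.cos (th m j) ^ 2 := by unfold al; ring
  rw [e2]
  exact (mul_eq_zero.1 h).resolve_right hs.ne'

lemma A_fac (m : ℕ) : (AB m).1 = ∏ j ∈ Finset.range m, (X - C (- al m j)) := by
  have hm : (∏ j ∈ Finset.range m, (X - C (- al m j))).Monic :=
    monic_prod_of_monic _ _ fun j _ => monic_X_sub_C _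
  have hd : (∏ j ∈ Finset.range m, (X - C (- al m j))).natDegree = m := by
    rw [natDegree_prod_of_monic _ _ fun j _ => monic_X_sub_C _]
    simp
  obtain ⟨h1, h2, h3⟩ := AB_deg m
  apply eq_of_degree_sub_lt_of_eval_index_eq (Finset.range m) (al_injOn m)
  · have hdeg : (AB m).1.degree = (∏ j ∈ Finset.range m, (X - C (- al m j))).degree := by
      rw [degree_eq_natDegree h1.ne_zero, degree_eq_natDegree hm.ne_zero, h2, hd]
    have := degree_sub_lt_left hdeg h1.ne_zero (by rw [h1.leadingCoeff, hm.leadingCoeff])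
    refine lt_of_lt_of_le this ?_
    rw [degree_eq_natDegree h1.ne_zero, h2, Finset.card_range]
  · intro i hi
    rw [A_root (Finset.mem_range.1 hi), eval_prod]
    symm
    apply Finset.prod_eq_zero hi
    simp

/-- the weights -/
noncomputable def wt (m j : ℕ) : ℝ :=
  (AB m).2.eval (- al m j) / ∏ l ∈ (Finset.range m).erase j, (- al m j + al m l)

lemma dA (m j : ℕ) (hj : j < m) : (derivative (AB m).1).eval (- al m j) =
    ∏ l ∈ (Finset.range m).erase j, (- al m j + al m l) := by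
  have h := A_fac m
  have hn : (AB m).1 = Lagrange.nodal (Finset.range m) (fun j => - al m j) := by
    rw [h, Lagrange.nodal_eq]
  have h2 := Lagrange.eval_nodal_derivative_eval_node_eq (s := Finset.range m)
    (v := fun j => - al m j) (Finset.mem_range.2 hj)
  rw [hn, h2, Lagrange.eval_nodal]
  refine Finset.prod_congr rfl fun l _ => ?_
  ring

lemma wt_pos {m j : ℕ} (hj : j < m) : 0 < wt m j := by
  obtain ⟨k, rfl⟩ : ∃ k, m = k + 1 := ⟨m - 1, by omega⟩
  have h := AB_wronsk k (- al (k+1) j)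
  rw [A_root hj, zero_mul, sub_zero, dA _ _ hj] at h
  unfold wt
  set D := ∏ l ∈ (Finset.range (k+1)).erase j, (- al (k+1) j + al (k+1) l)
  set b := (AB (k+1)).2.eval (- al (k+1) j)
  have hD : D ≠ 0 := by
    intro h0; rw [h0] at h; linarith
  have : b / D = (D * b) / D ^ 2 := by field_simp
  rw [this]
  have : 0 < D ^ 2 := by positivity
  apply div_pos (by linarith) this

lemma prod_erase_monic (m j : ℕ) :
    (∏ l ∈ (Finset.range m).erase j, (X - C (- al m l))).Monic :=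
  monic_prod_of_monic _ _ fun _ _ => monic_X_sub_C _

lemma prod_erase_natDegree {m j : ℕ} (hj : j < m) :
    (∏ l ∈ (Finset.range m).erase j, (X - C (- al m l))).natDegree = m - 1 := by
  rw [natDegree_prod_of_monic _ _ fun j _ => monic_X_sub_C _]
  simp [Finset.card_erase_of_mem (Finset.mem_range.2 hj)]

lemma B_eq (m : ℕ) : (AB m).2 = ∑ j ∈ Finset.range m, C (wt m j) *
    ∏ l ∈ (Finset.range m).erase j, (X - C (- al m l)) := by
  apply eq_of_degrees_lt_of_eval_index_eq (Finset.range m) (al_injOn m)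
  · rw [Finset.card_range]; exact (AB_deg m).2.2
  · rw [Finset.card_range, ← mem_degreeLT]
    apply Submodule.sum_mem
    intro j hj
    rw [← smul_eq_C_mul]
    apply Submodule.smul_mem
    rw [mem_degreeLT]
    rw [degree_eq_natDegree (prod_erase_monic m j).ne_zero,
      prod_erase_natDegree (Finset.mem_range.1 hj)]
    have := Finset.mem_range.1 hj
    exact_mod_cast (by omega : m - 1 < m)
  · intro i hi
    rw [eval_finsetSum, Finset.sum_eq_single_of_mem i hi]
    · rw [eval_mul, eval_C, eval_prod]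
      have hD : ∏ l ∈ (Finset.range m).erase i, eval (- al m i) (X - C (- al m l)) =
          ∏ l ∈ (Finset.range m).erase i, (- al m i + al m l) := by
        refine Finset.prod_congr rfl fun l _ => ?_
        simp
      rw [hD]
      unfold wt
      have hne : ∏ l ∈ (Finset.range m).erase i, (- al m i + al m l) ≠ 0 := by
        rw [Finset.prod_ne_zero_iff]
        intro l hl h0
        have hl' := Finset.mem_erase.1 hl
        apply hl'.1
        apply al_injOn m (by simpa using hl'.2) (by simpa using hi)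
        show - al m l = - al m i
        linarith
      rw [div_mul_cancel₀ _ hne]
    · intro j _ hji
      rw [eval_mul, eval_prod]
      rw [Finset.prod_eq_zero (Finset.mem_erase.2 ⟨hji.symm, hi⟩) (by simp), mul_zero]

lemma wt_sum (m : ℕ) (hm : 1 ≤ m) : ∑ j ∈ Finset.range m, wt m j = 1 := by
  obtain ⟨k, rfl⟩ : ∃ k, m = k + 1 := ⟨m - 1, by omega⟩
  have h := congrArg (fun P => P.coeff k) (B_eq (k+1))
  simp only [finsetSum_coeff, coeff_C_mul] at h
  have h1 : (AB (k+1)).2.coeff k = 1 := by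
    have h3 := AB2_monic k
    have h4 := h3.1.coeff_natDegree
    rw [h3.2] at h4
    exact h4
  rw [h1] at h
  rw [h]
  refine Finset.sum_congr rfl fun j hj => ?_
  have h2 : (∏ l ∈ (Finset.range (k+1)).erase j, (X - C (- al (k+1) l))).coeff k = 1 := by
    have h3 := prod_erase_natDegree (Finset.mem_range.1 hj)
    have h4 := (prod_erase_monic (k+1) j).coeff_natDegree
    rw [h3] at h4
    simpa using h4
  rw [h2, mul_one]

/-! ### the polynomials `F_s` over `ℝ` -/

/-- the real version of `F_s` -/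
noncomputable def FR : ℕ → ℝ[X]
  | 0 => 1
  | 1 => 1
  | (s+2) => pp * FR (s+1) + X ^ 3 * FR s

lemma FR_eval (m : ℕ) (q : ℝ) (hq : 0 < q) :
    (FR (2*m+1)).eval q = (q ^ 3) ^ m * ((AB m).1.eval (pp.eval q ^ 2 / q ^ 3) +
      pp.eval q * (AB m).2.eval (pp.eval q ^ 2 / q ^ 3)) ∧
    (FR (2*m+2)).eval q = (q ^ 3) ^ m * ((pp.eval q + q ^ 3) *
      (AB m).1.eval (pp.eval q ^ 2 / q ^ 3) +
      pp.eval q * (AB m).2.eval (pp.eval q ^ 2 / q ^ 3)) := by
  induction m with
  | zero => simp [FR, AB]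
  | succ m ih =>
    obtain ⟨h1, h2⟩ := ih
    have e3 : (FR (2*(m+1)+1)).eval q = pp.eval q * (FR (2*m+2)).eval q +
        q ^ 3 * (FR (2*m+1)).eval q := by
      have : FR (2*(m+1)+1) = pp * FR (2*m+2) + X ^ 3 * FR (2*m+1) := rfl
      rw [this]; simp
    have e4 : (FR (2*(m+1)+2)).eval q = pp.eval q * (FR (2*(m+1)+1)).eval q +
        q ^ 3 * (FR (2*m+2)).eval q := by
      have : FR (2*(m+1)+2) = pp * FR (2*(m+1)+1) + X ^ 3 * FR (2*m+2) := rfl
      rw [this]; simp
    have hq3 : q ^ 3 ≠ 0 := by positivity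
    have hz : q ^ 3 * (pp.eval q ^ 2 / q ^ 3) = pp.eval q ^ 2 := by field_simp
    rw [AB1_succ, AB2_succ]
    simp only [eval_add, eval_mul, eval_X]
    rw [e4, e3, h1, h2]
    set t := pp.eval q ^ 2 / q ^ 3
    set a := (AB m).1.eval t
    set b := (AB m).2.eval t
    set p := pp.eval q
    constructor
    · rw [pow_succ (q^3) m]
      linear_combination (- (q^3)^m * (a + b)) * hz
    · rw [pow_succ (q^3) m]
      linear_combination (- (q^3)^m * (p + q^3) * (a + b)) * hz

/-- common product of the other quartic factors -/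
noncomputable def KQ (m j : ℕ) : ℝ[X] := ∏ l ∈ (Finset.range m).erase j, Qx (al m l)

lemma Qx_eval {q : ℝ} (hq : 0 < q) (x : ℝ) :
    (Qx x).eval q = q ^ 3 * (pp.eval q ^ 2 / q ^ 3 + x) := by
  have hq3 : q ^ 3 ≠ 0 := by positivity
  rw [Qx_eq]
  simp only [eval_add, eval_mul, eval_pow, eval_C, eval_X]
  field_simp

lemma KQ_eval {m j : ℕ} (hj : j < m) {q : ℝ} (hq : 0 < q) :
    q ^ 3 * (KQ m j).eval q =
      (q ^ 3) ^ m * ∏ l ∈ (Finset.range m).erase j, (pp.eval q ^ 2 / q ^ 3 + al m l) := by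
  unfold KQ
  rw [eval_prod]
  simp only [Qx_eval hq]
  rw [Finset.prod_mul_distrib, Finset.prod_const,
    Finset.card_erase_of_mem (Finset.mem_range.2 hj), Finset.card_range, ← mul_assoc,
    ← pow_succ', Nat.sub_add_cancel (by omega : 1 ≤ m)]

lemma A_eval (m : ℕ) (t : ℝ) : (AB m).1.eval t = ∏ l ∈ Finset.range m, (t + al m l) := by
  rw [A_fac, eval_prod]
  refine Finset.prod_congr rfl fun l _ => ?_
  simp

lemma B_eval (m : ℕ) (t : ℝ) : (AB m).2.eval t =
    ∑ j ∈ Finset.range m, wt m j * ∏ l ∈ (Finset.range m).erase j, (t + al m l) := by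
  rw [B_eq, eval_finsetSum]
  refine Finset.sum_congr rfl fun j _ => ?_
  rw [eval_mul, eval_C, eval_prod]
  congr 1
  refine Finset.prod_congr rfl fun l _ => ?_
  simp

lemma infinite_pos : Set.Infinite {q : ℝ | 0 < q} := Set.Ioi_infinite 0

lemma FR_odd (m : ℕ) (hm : 1 ≤ m) :
    FR (2*m+1) = ∑ j ∈ Finset.range m, C (wt m j) * (Gx (al m j) * KQ m j) := by
  apply Polynomial.eq_of_infinite_eval_eq
  apply infinite_pos.mono
  intro q hq
  simp only [Set.mem_ofPred_eq] at hq ⊢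
  rw [(FR_eval m q hq).1, eval_finsetSum]
  set t := pp.eval q ^ 2 / q ^ 3 with ht
  set p := pp.eval q with hp
  have hterm : ∀ j ∈ Finset.range m, (C (wt m j) * (Gx (al m j) * KQ m j)).eval q =
      wt m j * ((q^3)^m * (AB m).1.eval t) + (q^3)^m * p *
        (wt m j * ∏ l ∈ (Finset.range m).erase j, (t + al m l)) := by
    intro j hj
    have hj' := Finset.mem_range.1 hj
    have hK := KQ_eval hj' hq
    rw [← ht] at hK
    have hQ := Qx_eval hq (al m j)
    rw [← ht] at hQ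
    have hA : (AB m).1.eval t = (t + al m j) * ∏ l ∈ (Finset.range m).erase j, (t + al m l) := by
      rw [A_eval, ← Finset.mul_prod_erase _ (fun l => t + al m l) hj]
    rw [hA]
    simp only [eval_mul, eval_C, Gx_eq, eval_add, eval_pow, eval_X]
    rw [hQ, ← hp]
    linear_combination (wt m j * (t + al m j) + wt m j * p) * hK
  rw [Finset.sum_congr rfl hterm, Finset.sum_add_distrib, ← Finset.sum_mul, ← Finset.mul_sum,
    wt_sum m hm, ← B_eval]
  ring

lemma FR_even (m : ℕ) (hm : 1 ≤ m) :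
    FR (2*m+2) = ∑ j ∈ Finset.range m, C (wt m j) * (Hx (al m j) * KQ m j) := by
  apply Polynomial.eq_of_infinite_eval_eq
  apply infinite_pos.mono
  intro q hq
  simp only [Set.mem_ofPred_eq] at hq ⊢
  rw [(FR_eval m q hq).2, eval_finsetSum]
  set t := pp.eval q ^ 2 / q ^ 3 with ht
  set p := pp.eval q with hp
  have hterm : ∀ j ∈ Finset.range m, (C (wt m j) * (Hx (al m j) * KQ m j)).eval q =
      wt m j * ((p + q^3) * ((q^3)^m * (AB m).1.eval t)) + (q^3)^m * p *
        (wt m j * ∏ l ∈ (Finset.range m).erase j, (t + al m l)) := by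
    intro j hj
    have hj' := Finset.mem_range.1 hj
    have hK := KQ_eval hj' hq
    rw [← ht] at hK
    have hQ := Qx_eval hq (al m j)
    rw [← ht] at hQ
    have hA : (AB m).1.eval t = (t + al m j) * ∏ l ∈ (Finset.range m).erase j, (t + al m l) := by
      rw [A_eval, ← Finset.mul_prod_erase _ (fun l => t + al m l) hj]
    rw [hA]
    simp only [eval_mul, eval_C, Hx_eq, eval_add, eval_pow, eval_X]
    rw [hQ, ← hp]
    linear_combination (wt m j * (p + q^3) * (t + al m j) + wt m j * p) * hK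
  rw [Finset.sum_congr rfl hterm, Finset.sum_add_distrib, ← Finset.sum_mul, ← Finset.mul_sum,
    wt_sum m hm, ← B_eval]
  ring

/-! ### log-concavity -/

lemma slc_list : ∀ l : List ℝ, (∀ x ∈ l, 0 ≤ x ∧ x ≤ 4) → 2 ≤ l.length →
    SLC (cz (l.map Qx).prod)
  | [], _, h => by simp at h
  | [_], _, h => by simp at h
  | [a, b], h, _ => by
    have ha := h a (by simp)
    have hb := h b (by simp)
    simp only [List.map_cons, List.map_nil, List.prod_cons, List.prod_nil, mul_one]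
    rw [QQ_eq]
    exact slc_of_cross (qq_pos ha.1 hb.1) (qq_cross ha.1 ha.2 hb.1 hb.2)
  | [a, b, c], h, _ => by
    have ha := h a (by simp)
    have hb := h b (by simp)
    have hc := h c (by simp)
    simp only [List.map_cons, List.map_nil, List.prod_cons, List.prod_nil, mul_one]
    rw [QQQ_eq]
    exact slc_of_cross (qqq_pos ha.1 hb.1 hc.1) (qqq_cross ha.1 ha.2 hb.1 hb.2 hc.1 hc.2)
  | (a :: b :: c :: d :: t), h, _ => by
    have ha := h a (by simp)
    have hb := h b (by simp)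
    have ih := slc_list (c :: d :: t) (fun x hx => h x (by
      simp only [List.mem_cons] at hx ⊢; tauto)) (by simp)
    have e : ((a :: b :: c :: d :: t).map Qx).prod =
        (Qx a * Qx b) * ((c :: d :: t).map Qx).prod := by
      simp only [List.map_cons, List.prod_cons]; ring
    rw [e, QQ_eq]
    exact slc_mul (slc_of_cross (qq_pos ha.1 hb.1) (qq_cross ha.1 ha.2 hb.1 hb.2)) ih

lemma slc_finset (s : Finset ℕ) (α : ℕ → ℝ) (h0 : ∀ i, 0 ≤ α i) (h4 : ∀ i, α i ≤ 4)
    (hs : 2 ≤ s.card) : SLC (cz (∏ l ∈ s, Qx (α l))) := by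
  have := slc_list (s.toList.map α) (by
    intro x hx
    obtain ⟨i, _, rfl⟩ := List.mem_map.1 hx
    exact ⟨h0 i, h4 i⟩) (by simpa using hs)
  have e : ((s.toList.map α).map Qx).prod = ∏ l ∈ s, Qx (α l) := by
    rw [List.map_map, ← Finset.prod_map_toList]
    rfl
  rwa [e] at this

/-- assembling: general statement for a family of factors -/
lemma assemble (T : ℝ → ℝ[X]) (L : ℝ → ℝ → List ℝ) (hL : ∀ x y, T x * Qx y = ofL (L x y))
    (hmix : ∀ x y, 0 ≤ x → x ≤ 4 → 0 ≤ y → y ≤ 4 →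
      Mix (cz (ofL (L x y))) (cz (ofL (L y x))))
    (hself : ∀ x y, 0 ≤ x → x ≤ 4 → 0 ≤ y → y ≤ 4 → SLC (cz (ofL (L x y))))
    (m : ℕ) (hm : 4 ≤ m) :
    SLC (cz (∑ j ∈ Finset.range m, C (wt m j) * (T (al m j) * KQ m j))) := by
  apply slc_sum
  · intro i hi
    exact (wt_pos (Finset.mem_range.1 hi)).le
  · intro i hi j hj
    have card2 : ∀ a b, a ∈ Finset.range m → b ∈ (Finset.range m).erase a →
        2 ≤ (((Finset.range m).erase a).erase b).card := by
      intro a b ha hb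
      rw [Finset.card_erase_of_mem hb, Finset.card_erase_of_mem ha, Finset.card_range]
      omega
    have key : ∀ a b, b ∈ (Finset.range m).erase a → T (al m a) * KQ m a =
        (∏ l ∈ ((Finset.range m).erase a).erase b, Qx (al m l)) * (T (al m a) * Qx (al m b)) := by
      intro a b hb
      unfold KQ
      rw [← Finset.mul_prod_erase _ _ hb]
      ring
    rcases eq_or_ne i j with rfl | hij
    · rw [← mix_self]
      obtain ⟨l, hl⟩ : ((Finset.range m).erase i).Nonempty := by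
        rw [← Finset.card_pos, Finset.card_erase_of_mem hi, Finset.card_range]
        omega
      rw [key i l hl, hL]
      exact slc_mul (slc_finset _ _ (al_nonneg m) (al_le m) (card2 i l hi hl))
        (hself _ _ (al_nonneg m _) (al_le m _) (al_nonneg m _) (al_le m _))
    · have hji : j ∈ (Finset.range m).erase i := Finset.mem_erase.2 ⟨hij.symm, hj⟩
      have hij' : i ∈ (Finset.range m).erase j := Finset.mem_erase.2 ⟨hij, hi⟩
      rw [key i j hji, key j i hij', hL, hL, Finset.erase_right_comm (a := j)]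
      exact mix_mul (slc_finset _ _ (al_nonneg m) (al_le m) (card2 i j hi hji))
        (hmix _ _ (al_nonneg m _) (al_le m _) (al_nonneg m _) (al_le m _))

lemma gq_len (x y : ℝ) : (gqL x y).length = 10 := rfl
lemma g2q_len (x y : ℝ) : (g2qL x y).length = 12 := rfl

lemma slc_odd (m : ℕ) (hm : 4 ≤ m) : SLC (cz (FR (2*m+1))) := by
  rw [FR_odd m (by omega)]
  refine assemble Gx gqL GQ_eq ?_ ?_ m hm
  · intro x y hx hx4 hy hy4
    exact mix_of_cross (by rw [gq_len, gq_len]) (gq_pos hx hy) (gq_pos hy hx)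
      (gq_cross hx hx4 hy hy4) (gq_cross hy hy4 hx hx4) (gq_cross2 hx hx4 hy hy4)
      (gq_cross2 hy hy4 hx hx4)
  · intro x y hx hx4 hy hy4
    exact slc_of_cross (gq_pos hx hy) (gq_cross hx hx4 hy hy4)

lemma slc_even (m : ℕ) (hm : 4 ≤ m) : SLC (cz (FR (2*m+2))) := by
  rw [FR_even m (by omega)]
  refine assemble Hx g2qL HQ_eq ?_ ?_ m hm
  · intro x y hx hx4 hy hy4
    exact mix_of_cross (by rw [g2q_len, g2q_len]) (g2q_pos hx hy) (g2q_pos hy hx)
      (g2q_cross hx hx4 hy hy4) (g2q_cross hy hy4 hx hx4) (g2q_cross2 hx hx4 hy hy4)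
      (g2q_cross2 hy hy4 hx hx4)
  · intro x y hx hx4 hy hy4
    exact slc_of_cross (g2q_pos hx hy) (g2q_cross hx hx4 hy hy4)

/-! ### small cases -/

lemma FR_2 : FR 2 = ofL [1, 1, 2, 1] := by
  have h : FR 2 = pp * FR 1 + X ^ 3 * FR 0 := rfl
  rw [h, show FR 1 = 1 from rfl, show FR 0 = 1 from rfl]
  simp only [ofL, pp, map_ofNat, map_one]
  ring

lemma FR_3 : FR 3 = ofL [1, 2, 5, 6, 5, 2] := by
  have h : FR 3 = pp * FR 2 + X ^ 3 * FR 1 := rfl
  rw [h, FR_2, show FR 1 = 1 from rfl]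
  simp only [ofL, pp, map_ofNat, map_one]
  ring

lemma FR_4 : FR 4 = ofL [1, 3, 9, 16, 22, 21, 13, 4] := by
  have h : FR 4 = pp * FR 3 + X ^ 3 * FR 2 := rfl
  rw [h, FR_3, FR_2]
  simp only [ofL, pp, map_ofNat, map_one]
  ring

lemma FR_5 : FR 5 = ofL [1, 4, 14, 32, 58, 80, 84, 64, 32, 8] := by
  have h : FR 5 = pp * FR 4 + X ^ 3 * FR 3 := rfl
  rw [h, FR_4, FR_3]
  simp only [ofL, pp, map_ofNat, map_one]
  ring

lemma FR_6 : FR 6 = ofL [1, 5, 20, 55, 121, 211, 296, 330, 285, 181, 76, 16] := by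
  have h : FR 6 = pp * FR 5 + X ^ 3 * FR 4 := rfl
  rw [h, FR_5, FR_4]
  simp only [ofL, pp, map_ofNat, map_one]
  ring

lemma FR_7 : FR 7 = ofL [1, 6, 27, 86, 220, 456, 781, 1106, 1287, 1210, 891, 486, 176, 32] := by
  have h : FR 7 = pp * FR 6 + X ^ 3 * FR 5 := rfl
  rw [h, FR_6, FR_5]
  simp only [ofL, pp, map_ofNat, map_one]
  ring

lemma FR_8 : FR 8 = ofL [1, 7, 35, 126, 365, 868, 1732, 2920, 4166, 5005, 5005, 4082, 2625, 1256, 400, 64] := by
  have h : FR 8 = pp * FR 7 + X ^ 3 * FR 6 := rfl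
  rw [h, FR_7, FR_6]
  simp only [ofL, pp, map_ofNat, map_one]
  ring

lemma slc_4 : SLC (cz (FR 4)) := by
  rw [FR_4]
  apply slc_of_cross
  · intro x hx
    simp only [List.mem_cons, List.not_mem_nil, or_false] at hx
    rcases hx with rfl | rfl | rfl | rfl | rfl | rfl | rfl | rfl <;> norm_num
  · simp only [Cross, and_true]
    norm_num

lemma slc_5 : SLC (cz (FR 5)) := by
  rw [FR_5]
  apply slc_of_cross
  · intro x hx
    simp only [List.mem_cons, List.not_mem_nil, or_false] at hx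
    rcases hx with rfl | rfl | rfl | rfl | rfl | rfl | rfl | rfl | rfl | rfl <;> norm_num
  · simp only [Cross, and_true]
    norm_num

lemma slc_6 : SLC (cz (FR 6)) := by
  rw [FR_6]
  apply slc_of_cross
  · intro x hx
    simp only [List.mem_cons, List.not_mem_nil, or_false] at hx
    rcases hx with rfl | rfl | rfl | rfl | rfl | rfl | rfl | rfl | rfl | rfl | rfl | rfl <;> norm_num
  · simp only [Cross, and_true]
    norm_num

lemma slc_7 : SLC (cz (FR 7)) := by
  rw [FR_7]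
  apply slc_of_cross
  · intro x hx
    simp only [List.mem_cons, List.not_mem_nil, or_false] at hx
    rcases hx with rfl | rfl | rfl | rfl | rfl | rfl | rfl | rfl | rfl | rfl | rfl | rfl | rfl | rfl <;> norm_num
  · simp only [Cross, and_true]
    norm_num

lemma slc_8 : SLC (cz (FR 8)) := by
  rw [FR_8]
  apply slc_of_cross
  · intro x hx
    simp only [List.mem_cons, List.not_mem_nil, or_false] at hx
    rcases hx with rfl | rfl | rfl | rfl | rfl | rfl | rfl | rfl | rfl | rfl | rfl | rfl | rfl | rfl | rfl | rfl <;> norm_num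
  · simp only [Cross, and_true]
    norm_num

lemma slc_FR (s : ℕ) (hs : 4 ≤ s) : SLC (cz (FR s)) := by
  rcases Nat.lt_or_ge s 9 with h | h
  · interval_cases s
    · exact slc_4
    · exact slc_5
    · exact slc_6
    · exact slc_7
    · exact slc_8
  · rcases Nat.even_or_odd' s with ⟨k, rfl | rfl⟩
    · have := slc_even (k-1) (by omega)
      have e : 2 * (k-1) + 2 = 2 * k := by omega
      rwa [e] at this
    · exact slc_odd k (by omega)

/-! ### the statement -/

/-- The polynomials `F_s` of the problem. -/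
noncomputable def F : ℕ → ℤ[X]
  | 0 => 1
  | 1 => 1
  | (s+2) => (1 + X + 2 * X ^ 2) * F (s+1) + X ^ 3 * F s

/-- The coefficient sequence `a_0, ..., a_d` (`d` the degree) is unimodal. -/
def UnimodalCoeffs (P : ℤ[X]) : Prop :=
  ∃ m ≤ P.natDegree, (∀ i, i < m → P.coeff i ≤ P.coeff (i+1)) ∧
    (∀ i, m ≤ i → i < P.natDegree → P.coeff (i+1) ≤ P.coeff i)

lemma FR_F : ∀ s, FR s = (F s).map (Int.castRingHom ℝ)
  | 0 => by simp [FR, F]
  | 1 => by simp [FR, F]
  | (s+2) => by
    rw [FR, F, FR_F (s+1), FR_F s]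
    simp [pp]

lemma coeff_FR (s k : ℕ) : (FR s).coeff k = ((F s).coeff k : ℝ) := by
  rw [FR_F, coeff_map]; rfl

lemma F_nonneg : ∀ s k, 0 ≤ (F s).coeff k
  | 0, k => by
    rw [F, coeff_one]; split_ifs <;> norm_num
  | 1, k => by
    rw [F, coeff_one]; split_ifs <;> norm_num
  | (s+2), k => by
    rw [F, coeff_add, coeff_mul, coeff_mul]
    apply add_nonneg
    · apply Finset.sum_nonneg
      intro x _
      apply mul_nonneg _ (F_nonneg (s+1) _)
      have : (1 + X + 2 * X ^ 2 : ℤ[X]) = C 1 + C 1 * X ^ 1 + C 2 * X ^ 2 := by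
        simp only [map_one, map_ofNat]; ring
      rw [this, coeff_add, coeff_add, coeff_C, coeff_C_mul_X_pow, coeff_C_mul_X_pow]
      split_ifs <;> norm_num
    · apply Finset.sum_nonneg
      intro x _
      apply mul_nonneg _ (F_nonneg s _)
      rw [coeff_X_pow]
      split_ifs <;> norm_num

lemma F_zero_coeff : ∀ s, (F s).coeff 0 = 1
  | 0 => by simp [F]
  | 1 => by simp [F]
  | (s+2) => by
    rw [F, coeff_add, mul_coeff_zero, mul_coeff_zero, F_zero_coeff (s+1)]
    simp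

lemma lc_F (s : ℕ) (hs : 4 ≤ s) (i j : ℕ) (hij : i ≤ j) :
    (F s).coeff i * (F s).coeff (j+2) ≤ (F s).coeff (i+1) * (F s).coeff (j+1) := by
  have h := slc_FR s hs ((i+1 : ℕ) : ℤ) ((j+1 : ℕ) : ℤ) (by exact_mod_cast Nat.succ_le_succ hij)
  have e1 : (((i+1 : ℕ) : ℤ) - 1) = ((i : ℕ) : ℤ) := by push_cast; ring
  have e2 : (((j+1 : ℕ) : ℤ) + 1) = ((j + 2 : ℕ) : ℤ) := by push_cast; ring
  rw [e1, e2] at h
  simp only [cz_nat, coeff_FR] at h
  exact_mod_cast h

lemma unimodal_of_lc (P : ℤ[X]) (h0 : ∀ k, 0 ≤ P.coeff k) (h1 : 0 < P.coeff 0)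
    (h : ∀ i j, i ≤ j → P.coeff i * P.coeff (j+2) ≤ P.coeff (i+1) * P.coeff (j+1)) :
    UnimodalCoeffs P := by
  obtain ⟨m, hm, hmax⟩ := Finset.exists_max_image (Finset.range (P.natDegree + 1)) P.coeff
    ⟨0, by simp⟩
  have hmax' : ∀ k, P.coeff k ≤ P.coeff m := by
    intro k
    rcases Nat.lt_or_ge k (P.natDegree + 1) with hk | hk
    · exact hmax k (Finset.mem_range.2 hk)
    · rw [coeff_eq_zero_of_natDegree_lt (by omega)]
      exact h0 m
  have hpos : 0 < P.coeff m := lt_of_lt_of_le h1 (hmax' 0)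
  refine ⟨m, by simpa [Nat.lt_succ_iff] using hm, ?_, ?_⟩
  · intro i hi
    rcases Nat.lt_or_ge (i+1) m with h2 | h2
    · obtain ⟨j, rfl⟩ : ∃ j, m = j + 2 := ⟨m - 2, by omega⟩
      have h3 := h i j (by omega)
      have h4 := hmax' (j+1)
      have h5 : P.coeff i * P.coeff (j+2) ≤ P.coeff (i+1) * P.coeff (j+2) :=
        h3.trans (mul_le_mul_of_nonneg_left h4 (h0 _))
      exact le_of_mul_le_mul_right h5 hpos
    · have : i + 1 = m := by omega
      rw [this]; exact hmax' i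
  · intro i hi _
    rcases Nat.eq_or_lt_of_le hi with h2 | h2
    · rw [← h2]; exact hmax' _
    · obtain ⟨j, rfl⟩ : ∃ j, i = j + 1 := ⟨i - 1, by omega⟩
      have h3 := h m j (by omega)
      have h4 := hmax' (m+1)
      have h5 : P.coeff m * P.coeff (j+1+1) ≤ P.coeff m * P.coeff (j+1) :=
        h3.trans (mul_le_mul_of_nonneg_right h4 (h0 _))
      exact le_of_mul_le_mul_left h5 hpos

lemma coeff_F2 (k : ℕ) : ((F 2).coeff k : ℝ) = ([1, 1, 2, 1] : List ℝ).getD k 0 := by
  rw [← coeff_FR, FR_2, coeff_ofL]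

lemma coeff_F3 (k : ℕ) : ((F 3).coeff k : ℝ) = ([1, 2, 5, 6, 5, 2] : List ℝ).getD k 0 := by
  rw [← coeff_FR, FR_3, coeff_ofL]

lemma unimodal_0 : UnimodalCoeffs (F 0) := by
  refine ⟨0, Nat.zero_le _, fun i hi => absurd hi (Nat.not_lt_zero _), fun i _ hi => ?_⟩
  simp [F] at hi

lemma unimodal_1 : UnimodalCoeffs (F 1) := by
  refine ⟨0, Nat.zero_le _, fun i hi => absurd hi (Nat.not_lt_zero _), fun i _ hi => ?_⟩
  simp [F] at hi

lemma unimodal_2 : UnimodalCoeffs (F 2) := by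
  refine ⟨2, ?_, ?_, ?_⟩
  · apply le_natDegree_of_ne_zero
    intro h
    have := coeff_F2 2
    rw [h] at this
    norm_num at this
  · intro i hi
    have h1 := coeff_F2 i
    have h2 := coeff_F2 (i+1)
    interval_cases i <;> norm_num at h1 h2 ⊢ <;> norm_cast at h1 h2 <;> omega
  · intro i hi _
    rcases Nat.lt_or_ge i 4 with h | h
    · have h1 := coeff_F2 i
      have h2 := coeff_F2 (i+1)
      interval_cases i <;> norm_num at h1 h2 ⊢ <;> norm_cast at h1 h2 <;> omega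
    · have h2 := coeff_F2 (i+1)
      rw [List.getD_eq_default _ _ (by simp; omega)] at h2
      have h3 : (F 2).coeff (i+1) = 0 := by exact_mod_cast h2
      rw [h3]; exact F_nonneg _ _

lemma unimodal_3 : UnimodalCoeffs (F 3) := by
  refine ⟨3, ?_, ?_, ?_⟩
  · apply le_natDegree_of_ne_zero
    intro h
    have := coeff_F3 3
    rw [h] at this
    norm_num at this
  · intro i hi
    have h1 := coeff_F3 i
    have h2 := coeff_F3 (i+1)
    interval_cases i <;> norm_num at h1 h2 ⊢ <;> norm_cast at h1 h2 <;> omega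
  · intro i hi _
    rcases Nat.lt_or_ge i 6 with h | h
    · have h1 := coeff_F3 i
      have h2 := coeff_F3 (i+1)
      interval_cases i <;> norm_num at h1 h2 ⊢ <;> norm_cast at h1 h2 <;> omega
    · have h2 := coeff_F3 (i+1)
      rw [List.getD_eq_default _ _ (by simp; omega)] at h2
      have h3 : (F 3).coeff (i+1) = 0 := by exact_mod_cast h2
      rw [h3]; exact F_nonneg _ _

/-- For every `s` the coefficient sequence of `F_s` is unimodal; for `s ≥ 4` it is moreover
log-concave. -/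
theorem result : (∀ s : ℕ, UnimodalCoeffs (F s)) ∧
    ∀ s : ℕ, 4 ≤ s → ∀ k : ℕ, (F s).coeff k * (F s).coeff (k+2) ≤ (F s).coeff (k+1) ^ 2 := by
  constructor
  · intro s
    rcases Nat.lt_or_ge s 4 with h | h
    · interval_cases s
      · exact unimodal_0
      · exact unimodal_1
      · exact unimodal_2
      · exact unimodal_3
    · exact unimodal_of_lc _ (F_nonneg s) (by rw [F_zero_coeff]; norm_num) (lc_F s h)
  · intro s hs k
    have := lc_F s hs k k le_rfl
    rwa [← sq] at this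

end Pool.Agent.Results.MP_dbd06c_co.Unimodal
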